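import Pool.Agent.Helper16.SD.GoalsE

/-!
# Packet SD-B_LAM (project SD, MP_fc6b1e_nt)
-/

set_option autoImplicit false

namespace Pool.Agent.Helper99.SD.B_LAM

theorem cast_inj {p k k' : ℕ} (hp : 0 < p) (hk : k' ≤ k) (a b : ℕ) :
    ((p ^ (k - k') * a : ℕ) : ZMod (p ^ k)) = ((p ^ (k - k') * b : ℕ) : ZMod (p ^ k)) ↔
      (a : ZMod (p ^ k')) = (b : ZMod (p ^ k')) := by
  rw [ZMod.natCast_eq_natCast_iff, ZMod.natCast_eq_natCast_iff]
  have h : p ^ k = p ^ (k - k') * p ^ k' := by rw [← pow_add, Nat.sub_add_cancel hk]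
  rw [h]
  constructor
  · intro h1
    exact Nat.ModEq.mul_left_cancel' (pow_pos hp _).ne' h1
  · intro h1
    exact Nat.ModEq.mul_left' _ h1

theorem ex {p k k' : ℕ} [NeZero (p ^ k)] (hp : 0 < p) (hk : k' ≤ k) (y : ZMod (p ^ k))
    (hy : p ^ k' • y = 0) : ∃ n : ℕ, y = ((p ^ (k - k') * n : ℕ) : ZMod (p ^ k)) := by
  have h : p ^ k = p ^ (k - k') * p ^ k' := by rw [← pow_add, Nat.sub_add_cancel hk]
  have h1 : ((p ^ k' * y.val : ℕ) : ZMod (p ^ k)) = 0 := by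
    rw [Nat.cast_mul, ZMod.natCast_zmod_val, ← nsmul_eq_mul]
    exact hy
  rw [ZMod.natCast_eq_zero_iff] at h1
  have h1' : p ^ k' * p ^ (k - k') ∣ p ^ k' * y.val := by
    have h' : p ^ k' * p ^ (k - k') = p ^ k := by rw [h, mul_comm]
    rw [h']
    exact h1
  have h2 : p ^ (k - k') ∣ y.val := Nat.dvd_of_mul_dvd_mul_left (pow_pos hp _) h1'
  obtain ⟨n, hn⟩ := h2
  exact ⟨n, by rw [← hn, ZMod.natCast_zmod_val]⟩

theorem core (p : ℕ) [Fact p.Prime] (k k' : ℕ) (hk : k' + 1 ≤ k) {X : Type} [AddCommGroup X]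
    (M : AddSubgroup X) (ε : X →+ X) (hε : ∀ x ∈ M, ε x ∈ M) (l1 : X →+ ZMod (p ^ k))
    (h1 : ∀ x ∈ M, p ^ (k' + 1) • l1 x = 0) (h2 : ∃ x ∈ M, p ^ k' • l1 (ε x) ≠ 0) :
    ∃ l : X → ZMod (p ^ (k' + 1)),
      (∀ x ∈ M, ∀ y ∈ M, l (x + y) = l x + l y) ∧ ∃ x ∈ M, IsUnit (l (ε x)) := by
  classical
  have hp : 0 < p := (Fact.out : p.Prime).pos
  have : NeZero (p ^ k) := ⟨(pow_pos hp _).ne'⟩
  have hex : ∀ x ∈ M, ∃ n : ℕ, l1 x = ((p ^ (k - (k' + 1)) * n : ℕ) : ZMod (p ^ k)) :=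
    fun x hx => ex hp hk _ (h1 x hx)
  let N : X → ℕ := fun x =>
    if h : ∃ n : ℕ, l1 x = ((p ^ (k - (k' + 1)) * n : ℕ) : ZMod (p ^ k)) then h.choose else 0
  have hN : ∀ x ∈ M, l1 x = ((p ^ (k - (k' + 1)) * N x : ℕ) : ZMod (p ^ k)) := by
    intro x hx
    have h := hex x hx
    have : N x = h.choose := dif_pos h
    rw [this]
    exact h.choose_spec
  refine ⟨fun x => (N x : ZMod (p ^ (k' + 1))), ?_, ?_⟩
  · intro x hx y hy
    have e : ((p ^ (k - (k' + 1)) * N (x + y) : ℕ) : ZMod (p ^ k)) =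
        ((p ^ (k - (k' + 1)) * (N x + N y) : ℕ) : ZMod (p ^ k)) := by
      rw [← hN (x + y) (M.add_mem hx hy), map_add, hN x hx, hN y hy, mul_add, Nat.cast_add]
    have h3 := (cast_inj hp hk _ _).1 e
    show (N (x + y) : ZMod (p ^ (k' + 1))) = N x + N y
    rw [h3]
    push_cast
    rfl
  · obtain ⟨x, hx, hne⟩ := h2
    refine ⟨x, hx, ?_⟩
    show IsUnit ((N (ε x) : ℕ) : ZMod (p ^ (k' + 1)))
    rw [ZMod.isUnit_iff_coprime]
    apply Nat.Coprime.pow_right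
    rw [Nat.coprime_comm, Nat.Prime.coprime_iff_not_dvd (Fact.out : p.Prime)]
    rintro ⟨c, hc⟩
    apply hne
    rw [hN _ (hε x hx), hc, nsmul_eq_mul, ← Nat.cast_mul, ZMod.natCast_eq_zero_iff]
    refine ⟨c, ?_⟩
    have h : p ^ k = p ^ k' * p ^ (k - (k' + 1)) * p := by
      rw [← pow_add, ← pow_succ]
      congr 1
      omega
    rw [h]
    ring

theorem t : Pool.Agent.Helper16.SD.B_LAM := by
  classical
  intro p _ k X _ hX hsep M ε β hε hβ hβε hcomm b hb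
  have hp : 0 < p := (Fact.out : p.Prime).pos
  have hex : ∃ t : ℕ, ∀ x ∈ M, p ^ t • x = 0 := ⟨k, fun x _ => hX x⟩
  obtain ⟨x0, hx0, hx0ne⟩ := hb
  have hmono : ∀ (s t : ℕ) (x : X), s ≤ t → p ^ s • x = 0 → p ^ t • x = 0 := by
    intro s t x hst h
    rw [← Nat.sub_add_cancel hst, pow_add, mul_smul, h, smul_zero]
  have hq1 : b + 2 ≤ Nat.find hex := by
    by_contra hlt
    push Not at hlt
    exact hx0ne (hmono _ _ _ (by omega) (Nat.find_spec hex x0 hx0))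
  obtain ⟨q, hq⟩ : ∃ q, Nat.find hex = q + 2 := ⟨Nat.find hex - 2, by omega⟩
  have hmin := Nat.find_min hex (m := q + 1) (by omega)
  push Not at hmin
  obtain ⟨x, hx, hxne⟩ := hmin
  have hqk : q + 2 ≤ k := by
    by_contra hlt
    push Not at hlt
    exact hxne (hmono _ _ _ (by omega) (hX x))
  have hspec : ∀ x ∈ M, p ^ (q + 2) • x = 0 := by
    have := Nat.find_spec hex
    rwa [hq] at this
  have hx' : p ^ q • ε (ε (β x)) ≠ 0 := by
    rw [hcomm, hcomm, hβε, ← mul_smul, ← pow_succ]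
    exact hxne
  obtain ⟨l0, hl0⟩ := hsep _ hx'
  rw [map_nsmul] at hl0
  by_cases hA : ∀ y ∈ M, p ^ (q + 1) • l0 (ε y) = 0
  · obtain ⟨l, hl1, hl2⟩ := core p k q (by omega) M ε hε (l0.comp ε) hA
      ⟨β x, hβ x hx, hl0⟩
    exact ⟨q + 1, l, by omega, hl1, hl2⟩
  · push Not at hA
    obtain ⟨l, hl1, hl2⟩ := core p k (q + 1) hqk M ε hε l0
      (fun y hy => by rw [← map_nsmul, hspec y hy, map_zero]) hA
    exact ⟨q + 2, l, by omega, hl1, hl2⟩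

end Pool.Agent.Helper99.SD.B_LAM
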