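import Pool.Agent.Helper71.SD.Goals

/-!
Packet AUT2 of the disproof of `MP_dcced1_gt` (Helper71/SD): if the labelling of the top cube is one
of the three automorphism patterns, the top cube is essential.
-/

namespace Pool.Agent.Helper71.SD.AUT2

open Pool.Agent.Helper71.AHtpy SimpleGraph

theorem lev_near {V : Type} {X : SimpleGraph V} {n : ℕ} {q q' : Quotient (suspSetoid V n)}
    (h : Near (Susp X n) q q') : lev q ≤ lev q' + 1 ∧ lev q' ≤ lev q + 1 := by
  rw [← pt_lab_lev q, ← pt_lab_lev q', near_pt_iff (lev_le _) (lev_le _)] at h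
  exact h.1

theorem aff_tog (π : Equiv.Perm E) (w S : Finset E) (a : E) :
    aff π.toEmbedding w (tog a S) = tog (π a) (aff π.toEmbedding w S) := by
  ext x
  simp only [aff, mem_tog, Finset.mem_symmDiff, Finset.mem_map_equiv]
  have h : π.symm x = a ↔ x = π a := by
    constructor
    · intro h; rw [← h]; simp
    · intro h; rw [h]; simp
  rw [h]
  tauto

theorem aff_compl (π : Equiv.Perm E) (w S : Finset E) :
    aff π.toEmbedding w Sᶜ = (aff π.toEmbedding w S)ᶜ := by
  ext x
  simp only [aff, Finset.mem_symmDiff, Finset.mem_map_equiv, Finset.mem_compl]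
  tauto

theorem key (hMK : S_MKESS) (hLB : S_LEVB) {V : Type} {G : SimpleGraph V} {A : Amb G}
    {σ₀ σ₁ : Finset E → Quotient (suspSetoid V 6)} (P : Pair A σ₀ σ₁) (π : Equiv.Perm E)
    (w : Finset E) (hcard : ∀ S, (aff π.toEmbedding w S).card ≤ S.card + 1)
    (hb : Based A 6 3 (fun S => σ₁ (aff π.toEmbedding w S))) : EssA A σ₁ := by
  refine ⟨π, w, hMK V G A _ ?_ hb ?_ ?_⟩
  · rintro S _ ⟨a, rfl⟩
    have := P.g1 (aff π.toEmbedding w S) (aff π.toEmbedding w (tog a S)) ⟨π a, aff_tog π w S a⟩
    exact this
  · intro z hz h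
    have h1 := (hLB V G A σ₀ P.ess).1 (aff π.toEmbedding w z) (by have := hcard z; omega)
    have h2 := lev_near (P.near (aff π.toEmbedding w z))
    omega
  · intro z hz h
    have h1 := (hLB V G A σ₀ P.ess).2 (aff π.toEmbedding w z) (by have := hcard z; omega)
    have h2 := lev_near (P.near (aff π.toEmbedding w zᶜ))
    rw [aff_compl] at h h2
    omega

theorem card_tog_le (h : S_XC1) (i : E) (S : Finset E) :
    (tog i S).card ≤ S.card + 1 ∧ S.card ≤ (tog i S).card + 1 := by
  have h1 := h.2.2.2.2.2.2.2 i S
  by_cases hi : i ∈ S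
  · have := h1.1 hi; omega
  · have := h1.2 hi; omega

theorem aut2 : S_NONE → S_NBR → S_LBL → S_MKESS → S_LEVB → S_XC1 → S_AUT2 := by
  intro hN _ hL hMK hLB hX V G A σ₀ σ₁ P hc
  rcases hc with h | ⟨i, h⟩ | ⟨i, j, hij, h⟩
  · have h0 : ∀ S : Finset E, aff (1 : Equiv.Perm E).toEmbedding ∅ S = S := by
      intro S
      ext x
      simp only [aff, Finset.mem_symmDiff, Finset.mem_map_equiv, Finset.notMem_empty]
      have : (1 : Equiv.Perm E).symm x = x := rfl
      rw [this]
      tauto
    refine key hMK hLB P 1 ∅ (fun S => by rw [h0]; omega) ?_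
    intro S hS
    simp only [h0]
    exact hN V G A σ₀ σ₁ P h S ⟨by omega, by omega⟩
  · have h0 : ∀ S : Finset E, aff (1 : Equiv.Perm E).toEmbedding {i} S = tog i S := by
      intro S
      ext x
      simp only [aff, Finset.mem_symmDiff, Finset.mem_map_equiv, mem_tog, Finset.mem_singleton]
      have : (1 : Equiv.Perm E).symm x = x := rfl
      rw [this]
      tauto
    refine key hMK hLB P 1 {i} (fun S => by rw [h0]; exact (card_tog_le hX i S).1) ?_
    intro S hS
    simp only [h0]
    have h1 := card_tog_le hX i S
    have h2 := (hL V G A σ₁ (tog i S) i).1 (h (tog i S) ⟨by omega, by omega⟩)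
    rw [tog_tog] at h2
    exact h2
  · have h0 : ∀ S : Finset E, ((i ∈ S ↔ j ∈ S) →
        aff (Equiv.swap i j).toEmbedding {j} S = tog j S) ∧
        (¬ (i ∈ S ↔ j ∈ S) → aff (Equiv.swap i j).toEmbedding {j} S = tog i S) := by
      intro S
      constructor
      · intro hh
        ext x
        simp only [aff, Finset.mem_symmDiff, Finset.mem_map_equiv, mem_tog, Finset.mem_singleton,
          Equiv.symm_swap]
        by_cases hx : x = i
        · subst hx
          rw [Equiv.swap_apply_left]
          tauto
        · by_cases hx' : x = j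
          · subst hx'
            rw [Equiv.swap_apply_right]
            tauto
          · rw [Equiv.swap_apply_of_ne_of_ne hx hx']
            tauto
      · intro hh
        ext x
        simp only [aff, Finset.mem_symmDiff, Finset.mem_map_equiv, mem_tog, Finset.mem_singleton,
          Equiv.symm_swap]
        by_cases hx : x = i
        · subst hx
          rw [Equiv.swap_apply_left]
          tauto
        · by_cases hx' : x = j
          · subst hx'
            rw [Equiv.swap_apply_right]
            tauto
          · rw [Equiv.swap_apply_of_ne_of_ne hx hx']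
            tauto
    refine key hMK hLB P (Equiv.swap i j) {j} ?_ ?_
    · intro S
      by_cases hh : i ∈ S ↔ j ∈ S
      · rw [(h0 S).1 hh]; exact (card_tog_le hX j S).1
      · rw [(h0 S).2 hh]; exact (card_tog_le hX i S).1
    · intro S hS
      by_cases hh : i ∈ S ↔ j ∈ S
      · simp only [(h0 S).1 hh]
        have h1 := card_tog_le hX j S
        have hn : ¬ (i ∈ tog j S ↔ j ∈ tog j S) := by
          simp only [mem_tog]
          tauto
        have h2 := (hL V G A σ₁ (tog j S) j).1 ((h (tog j S) ⟨by omega, by omega⟩).2 hn)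
        rw [tog_tog] at h2
        exact h2
      · simp only [(h0 S).2 hh]
        have h1 := card_tog_le hX i S
        have hn : (i ∈ tog i S ↔ j ∈ tog i S) := by
          have hji : j ≠ i := fun e => hij e.symm
          simp only [mem_tog]
          tauto
        have h2 := (hL V G A σ₁ (tog i S) i).1 ((h (tog i S) ⟨by omega, by omega⟩).1 hn)
        rw [tog_tog] at h2
        exact h2

end Pool.Agent.Helper71.SD.AUT2
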